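import Pool.Agent.H482R3.EB.Stm

set_option autoImplicit false

/-! Project EB, task NBD (helper248): bound for the position of the near point. -/

namespace Pool.Agent.H248.EBNBD

open Pool.Agent.H482R3.EB
open Pool.Agent.H482R3.EA (W inv ev PP xx evF cond1 cond2 cV cW LIdx Syl gOf iW iV letF valS
  Sys St Near InD Adm Act)

lemma inv_length {S : Type} (u : W S) : (inv u).length = u.length := by
  simp [inv]

lemma abs_tot_le {S : Type} (u : W S) : |tot u| ≤ (u.length : ℤ) := by
  unfold tot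
  induction u with
  | nil => simp
  | cons a u ih =>
    rw [List.map_cons, List.sum_cons, List.length_cons]
    have h1 : |(if a.2 then (1 : ℤ) else -1)| ≤ 1 := by
      split_ifs <;> simp
    have h2 := abs_add_le (if a.2 then (1 : ℤ) else -1)
      (u.map (fun a => if a.2 then (1 : ℤ) else -1)).sum
    push_cast
    linarith

section

variable {Wt : Type} (m : Wt → Wt → ℕ) (hT : S_TOT) (hW : S_WPW) (hV : Pool.Agent.H482R3.EA.S_EV)

include hT hW in
lemma caseA (g' g : W Wt) (w : Wt) (j : ℤ) (h : TR m (inv g' ++ (g ++ wp w j))) :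
    |j| ≤ ((g.length + g'.length : ℕ) : ℤ) := by
  obtain ⟨t1, t2, t3, t4, t5, t6⟩ := hT Wt m
  obtain ⟨w1, w2, w3⟩ := hW Wt (AR m) inferInstance (gR m) w j
  have h0 : totg m (ev (gR m) (inv g' ++ (g ++ wp w j))) = 0 := by
    have h1 : ev (gR m) (inv g' ++ (g ++ wp w j)) = 1 := h
    rw [h1]
    simp [totg]
  rw [t1, t5, t5, t6, w2] at h0
  have a1 := abs_tot_le g
  have a2 := abs_tot_le g'
  have a3 : j = tot g' - tot g := by linarith
  have a4 : |tot g' - tot g| ≤ |tot g'| + |tot g| := abs_sub _ _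
  rw [a3]
  push_cast
  linarith

include hT hW hV in
lemma caseB (hm : Tame m) (g' g : W Wt) (w w' : Wt) (j : ℤ)
    (h : TR m ((inv g' ++ (g ++ wp w j)) ++ wp w' (-(tot (inv g' ++ (g ++ wp w j)))))) :
    (w' = w ∧ TR m ((inv g' ++ g) ++ wp w (-(tot (inv g' ++ g))))) ∨
    |j| ≤ ((g.length + g'.length : ℕ) : ℤ) := by
  obtain ⟨t1, t2, t3, t4, t5, t6⟩ := hT Wt m
  obtain ⟨v1, v2, v3⟩ := hV Wt (AR m) inferInstance (gR m)
  set t := tot (inv g' ++ (g ++ wp w j)) with ht
  have h1 : ev (gR m) (inv g' ++ g) * gR m w ^ j * gR m w' ^ (-t) = 1 := by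
    have h2 : ev (gR m) ((inv g' ++ (g ++ wp w j)) ++ wp w' (-t)) = 1 := h
    rw [v1, v1, v1, (hW Wt (AR m) inferInstance (gR m) w j).1,
      (hW Wt (AR m) inferInstance (gR m) w' (-t)).1] at h2
    rw [v1, ← h2]
    simp only [mul_assoc]
  have h3 : ev (gR m) (inv g' ++ g) = gR m w' ^ t * gR m w ^ (-j) := by
    have h4 : ev (gR m) (inv g' ++ g) * gR m w ^ j = gR m w' ^ t := by
      rw [zpow_neg] at h1
      exact mul_inv_eq_one.mp h1
    rw [zpow_neg]
    exact eq_mul_inv_of_mul_eq h4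
  by_cases hww : w' = w
  · left
    refine ⟨hww, ?_⟩
    subst hww
    rw [← zpow_add] at h3
    have h5 : tot (inv g' ++ g) = t + -j := by
      rw [← t1, h3, t4]
    show ev (gR m) ((inv g' ++ g) ++ wp w' (-(tot (inv g' ++ g)))) = 1
    rw [v1, (hW Wt (AR m) inferInstance (gR m) w' _).1, h5, h3, zpow_neg, mul_inv_cancel]
  · right
    have h6 := hm.bd w' w t (-j) (inv g' ++ g) hww h3
    rw [List.length_append, inv_length, abs_neg] at h6
    have h7 := abs_nonneg t
    push_cast at h6 ⊢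
    linarith

end

theorem t_NBD (hT : S_TOT) (hW : S_WPW) (hV : Pool.Agent.H482R3.EA.S_EV) : S_NBD := by
  intro V Wt c hm g v w j s hD hc hN
  match s, hD, hN with
  | none, _, hN => exact absurd hN (by simp [NearW])
  | some (.inl (g', v', b, n)), hD, hN =>
    rcases hN with h | ⟨hv, w', hc', h⟩
    · exact caseA (cW c) hT hW g' g w j h
    · rcases caseB (cW c) hT hW hV hm g' g w w' j h with ⟨_, h2⟩ | h2
      · exact absurd (show InDL c g v w (some (.inl (g', v', b, n))) from ⟨hv, h2⟩) hD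
      · exact h2
  | some (.inr (.inl (g', y))), hD, hN => exact caseA (cW c) hT hW g' g w j hN
  | some (.inr (.inr (g', v', w', y))), hD, hN =>
    obtain ⟨hv, h⟩ := hN
    rcases caseB (cW c) hT hW hV hm g' g w w' j h with ⟨hww, h2⟩ | h2
    · exact absurd (show InDL c g v w (some (.inr (.inr (g', v', w', y)))) from
        ⟨hv, hww.symm, h2⟩) hD
    · exact h2

end Pool.Agent.H248.EBNBD
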