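import Pool.Agent.H923R2.FZ.Stubs2

set_option autoImplicit false

namespace Pool.Agent.H923R2.FZ.T_EXW

open Pool.Agent.H923R2.FP Pool.Agent.H923R2.FZ

theorem t_EXW (hEX : S_EX) (hLEBF : S_LEBF) : S_EXW := by
  intro Z _ t ht k
  obtain ⟨l, hl, hleb⟩ := hLEBF
  let D : Fin k ⊕ ℕ → Type := fun o => Sum.elim (fun _ => Z) (fun _ => C(unitInterval, ℂ)) o
  let iD : ∀ o, CStarAlgebra (D o) := fun o => match o with
    | Sum.inl _ => (inferInstance : CStarAlgebra Z)
    | Sum.inr _ => (inferInstance : CStarAlgebra C(unitInterval, ℂ))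
  let tD : ∀ o, D o →ₗ[ℂ] ℂ := fun o => match o with
    | Sum.inl _ => t
    | Sum.inr _ => l
  have htD : ∀ o, FTS (tD o) := by
    rintro (i | n)
    · exact ht
    · exact hl
  obtain ⟨B, iB, τ, e, hR⟩ := hEX (Fin k ⊕ ℕ) D iD tD htD
  refine ⟨B, iB, τ, fun j => e (Sum.inl j), fun n => e (Sum.inr n), ?_⟩
  refine ⟨hR.fts, ?_, ?_, ?_, ?_⟩
  · intro j x
    exact hR.tr (Sum.inl j) x
  · intro n x
    exact (hR.tr (Sum.inr n) x).trans (hleb x)
  · have h1 := hR.free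
    have h2 : (fun o : Fin k ⊕ ℕ => o.elim (fun j => (e (Sum.inl j)).range)
        fun n => (e (Sum.inr n)).range) = fun j => (e j).range := by
      funext o
      rcases o with j | n
      · rfl
      · rfl
    exact h2 ▸ h1
  · have h1 := hR.gen
    rw [← h1]
    congr 2
    ext b
    simp only [Set.mem_union, Set.mem_iUnion]
    constructor
    · rintro (⟨j, hj⟩ | ⟨n, hn⟩)
      · exact ⟨Sum.inl j, hj⟩
      · exact ⟨Sum.inr n, hn⟩
    · rintro ⟨j | n, h⟩
      · exact Or.inl ⟨j, h⟩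
      · exact Or.inr ⟨n, h⟩

end Pool.Agent.H923R2.FZ.T_EXW
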